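import Pool.Graph.R_pool_sql_team_seeded_64922ed1.X108.CH.Core

/-!
# Large values of a function with nonnegative coefficients at the quotients of a set of characters

This file follows `core2`, `core3` of the library file `Pool.Agent.X108.CH.Core`, with the central value `Lw` replaced by an
arbitrary function `D` on the group of characters which dominates `κ FS A` for the relevant sets `A`.
-/

set_option autoImplicit false

open Finset Filter

namespace Pool.Agent.H86.ZC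

open Pool.Agent.X24.Coset hiding core2 core3 explicit
open Pool.Agent.X108.CH (qd sum2)

section
variable {q : ℕ} [hq : Fact q.Prime]

/-- **The core inequality with several blocks.** -/
theorem core2 (H : Finset (DirichletCharacter ℂ q)) (hne : H.Nonempty) {T : ℕ → Finset ℕ} {X B : ℕ} (hT : ∀ i, ∀ p ∈ T i, p.Prime)
    (hTX : ∀ i, ∀ p ∈ T i, p ≤ X) (hXq : X < q) (hd : ∀ i i', i ≠ i' → Disjoint (T i) (T i'))
    {j m : ℕ → ℕ} (hjm : ∀ i, j i ≤ m i)
    {D : DirichletCharacter ℂ q → ℂ} {κ K : ℝ} (hκ : 0 < κ) (hK : ∀ χ, ‖D χ‖ ≤ K)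
    (hD : ∀ A : Finset ℕ, (∀ a ∈ A, 1 ≤ a ∧ a ≤ X ^ (∑ i ∈ range B, j i)) →
      Dom (fun χ : DirichletCharacter ℂ q => (κ : ℂ) * FS A χ) D)
    {w d : ℕ → ℝ} (hw0 : ∀ i, 0 < w i) (hwj : ∀ i, 3 * (j i : ℝ) ≤ w i)
    (hw : ∀ i ∈ range B, w i ^ (2 * m i) ≤ ((m i).factorial : ℝ) ^ 2 * es (T i) (fun p => 1 / (p : ℝ)) (m i))
    (hwd : ∀ i, w i ≤ d i) (hdT : ∀ i, ∀ χ : DirichletCharacter ℂ q, ‖FS (T i) χ‖ ≤ d i)
    (hsize : 2 * K / κ * ∏ i ∈ range B, d i ^ (2 * m i) ≤ (H.card : ℝ) * ∏ i ∈ range B, w i ^ (2 * m i)) :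
    ∃ χ ∈ H, ∃ χ' ∈ H, χ ≠ χ' ∧ κ * (∏ i ∈ range B, (3 : ℝ) ^ j i) / (8 * 2 ^ B) ≤ ‖D (χ * χ'⁻¹)‖ := by
  classical
  have hcard : (0 : ℝ) < H.card := by exact_mod_cast hne.card_pos
  have hK0 : 0 ≤ K := (norm_nonneg _).trans (hK 1)
  have hd0 : ∀ i, 0 < d i := fun i => lt_of_lt_of_le (hw0 i) (hwd i)
  by_contra hcon
  push Not at hcon
  obtain ⟨k, hk⟩ : ∃ k : ℕ → ℕ, ∀ i, m i = k i + j i := ⟨fun i => m i - j i, fun i => (Nat.sub_add_cancel (hjm i)).symm⟩
  obtain ⟨A, hA1, _, hA3⟩ := blocks_dom (q := q) hT hTX hd j B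
  set F : ℝ := ∏ i ∈ range B, ((j i).factorial : ℝ) with hF
  have hF0 : 0 < F := prod_pos fun i _ => by exact_mod_cast Nat.factorial_pos _
  set M : ℝ := ∑ ψ ∈ H ×ˢ H, ∏ i ∈ range B, ‖FS (T i) (qd ψ)‖ ^ (2 * m i) with hM
  -- positivity
  have hpos : M ≤ F / κ * (∑ ψ ∈ H ×ˢ H, D (qd ψ) * ((∏ i ∈ range B, FS (T i) (qd ψ) ^ k i) *
      star (∏ i ∈ range B, FS (T i) (qd ψ) ^ m i))).re := by
    have hDD : Pos (fun χ : DirichletCharacter ℂ q => (∏ i ∈ range B, FS (T i) χ ^ k i) *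
        star (∏ i ∈ range B, FS (T i) χ ^ m i)) :=
      (Pos.prod _ fun i _ => (FS_pos (T i)).pow (k i)).mul (Pos.prod _ fun i _ => (FS_pos (T i)).pow (m i)).star
    have h1 : Dom (fun χ : DirichletCharacter ℂ q => (κ : ℂ) * FS A χ) D := hD A hA1
    have hj0 : (0 : ℝ) ≤ F / κ := by positivity
    have h3 := (Pos.smul (h1.mul_left hDD) hj0).add (hA3.mul_left hDD)
    have h4 := sum2 h3 H
    have h5 : ∀ χ : DirichletCharacter ℂ q,
        ((F / κ : ℝ) : ℂ) * ((∏ i ∈ range B, FS (T i) χ ^ k i) * star (∏ i ∈ range B, FS (T i) χ ^ m i) * D χ -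
          (∏ i ∈ range B, FS (T i) χ ^ k i) * star (∏ i ∈ range B, FS (T i) χ ^ m i) *
            ((κ : ℂ) * FS A χ)) +
        ((∏ i ∈ range B, FS (T i) χ ^ k i) * star (∏ i ∈ range B, FS (T i) χ ^ m i) *
            (((F : ℝ) : ℂ) * FS A χ) -
          (∏ i ∈ range B, FS (T i) χ ^ k i) * star (∏ i ∈ range B, FS (T i) χ ^ m i) *
            ∏ i ∈ range B, FS (T i) χ ^ j i) =
        ((F / κ : ℝ) : ℂ) * (D χ * ((∏ i ∈ range B, FS (T i) χ ^ k i) *
          star (∏ i ∈ range B, FS (T i) χ ^ m i))) -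
          ((∏ i ∈ range B, ‖FS (T i) χ‖ ^ (2 * m i) : ℝ) : ℂ) := by
      intro χ
      have h6 : ((∏ i ∈ range B, ‖FS (T i) χ‖ ^ (2 * m i) : ℝ) : ℂ) =
          (∏ i ∈ range B, FS (T i) χ ^ k i) * star (∏ i ∈ range B, FS (T i) χ ^ m i) *
            ∏ i ∈ range B, FS (T i) χ ^ j i := by
        rw [Complex.ofReal_prod, star_prod, ← prod_mul_distrib, ← prod_mul_distrib]
        refine prod_congr rfl fun i _ => ?_
        rw [← pow_mul_star, hk i, pow_add]
        ring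
      rw [h6]
      have hκ' : (κ : ℂ) ≠ 0 := by exact_mod_cast hκ.ne'
      push_cast
      field_simp
      ring
    rw [sum_congr rfl fun ψ _ => h5 (qd ψ), sum_sub_distrib, ← mul_sum, ← Complex.ofReal_sum, Complex.sub_re,
      Complex.ofReal_re, Complex.re_ofReal_mul] at h4
    linarith
  -- the moments
  have hth : ∀ i ∈ range B, Dom (fun _ : DirichletCharacter ℂ q => ((w i ^ (2 * m i) : ℝ) : ℂ))
      (fun χ => ((‖FS (T i) χ‖ ^ (2 * m i) : ℝ) : ℂ)) := fun i hi =>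
    theta_dom (fun p hp => ⟨(hT i p hp).one_lt.le, lt_of_le_of_lt (hTX i p hp) hXq⟩) (m i) (hw i hi)
  have hcp : ∀ i, 0 ≤ w i ^ (2 * m i) := fun i => by have := hw0 i; positivity
  have hM1 : (H.card : ℝ) ^ 2 * ∏ i ∈ range B, w i ^ (2 * m i) ≤ M := by
    have h1 := Dom.prod (q := q) (range B) hth (fun i _ => const_pos (hcp i)) (fun i _ => theta_pos (T i) (m i))
    have h2 := sum2 h1 H
    have h3 : ∀ χ : DirichletCharacter ℂ q, (∏ i ∈ range B, ((‖FS (T i) χ‖ ^ (2 * m i) : ℝ) : ℂ) -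
        ∏ i ∈ range B, ((w i ^ (2 * m i) : ℝ) : ℂ)) =
        ((∏ i ∈ range B, ‖FS (T i) χ‖ ^ (2 * m i) - ∏ i ∈ range B, w i ^ (2 * m i) : ℝ) : ℂ) := by
      intro χ
      push_cast
      rfl
    rw [sum_congr rfl fun ψ _ => h3 (qd ψ), ← Complex.ofReal_sum, Complex.ofReal_re, sum_sub_distrib, sum_const,
      nsmul_eq_mul, card_product, Nat.cast_mul, ← pow_two] at h2
    linarith
  have hM2 : (∏ i ∈ range B, w i ^ j i) * ∑ ψ ∈ H ×ˢ H, ∏ i ∈ range B, ‖FS (T i) (qd ψ)‖ ^ (2 * k i + j i) ≤ 2 ^ B * M := by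
    have h0 : ∀ i ∈ range B, Dom (fun χ : DirichletCharacter ℂ q =>
        ((‖FS (T i) χ‖ ^ (2 * m i) + w i ^ (2 * m i) : ℝ) : ℂ))
        (fun χ => ((2 * ‖FS (T i) χ‖ ^ (2 * m i) : ℝ) : ℂ)) := by
      intro i hi
      refine Pos.congr (hth i hi) fun χ => ?_
      push_cast
      ring
    have h1 := Dom.prod (q := q) (range B) h0
      (fun i _ => (Pos.add (theta_pos (T i) (m i)) (const_pos (hcp i))).congr fun χ => by push_cast; ring)
      (fun i _ => ((theta_pos (T i) (m i)).smul (c := 2) (by norm_num)).congr fun χ => by push_cast; ring)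
    have h2 := sum2 h1 H
    have h3 : ∀ χ : DirichletCharacter ℂ q, (∏ i ∈ range B, ((2 * ‖FS (T i) χ‖ ^ (2 * m i) : ℝ) : ℂ) -
        ∏ i ∈ range B, ((‖FS (T i) χ‖ ^ (2 * m i) + w i ^ (2 * m i) : ℝ) : ℂ)) =
        ((2 ^ B * ∏ i ∈ range B, ‖FS (T i) χ‖ ^ (2 * m i) -
          ∏ i ∈ range B, (‖FS (T i) χ‖ ^ (2 * m i) + w i ^ (2 * m i)) : ℝ) : ℂ) := by
      intro χ
      rw [Complex.ofReal_sub, Complex.ofReal_mul, Complex.ofReal_prod, Complex.ofReal_prod]
      congr 1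
      have : ∀ i ∈ range B, ((2 * ‖FS (T i) χ‖ ^ (2 * m i) : ℝ) : ℂ) =
          2 * ((‖FS (T i) χ‖ ^ (2 * m i) : ℝ) : ℂ) := fun i _ => by push_cast; ring
      rw [prod_congr rfl this, prod_mul_distrib, prod_const, card_range]
      push_cast
      rfl
    rw [sum_congr rfl fun ψ _ => h3 (qd ψ), ← Complex.ofReal_sum, Complex.ofReal_re, sum_sub_distrib, ← mul_sum] at h2
    have h4 : (∏ i ∈ range B, w i ^ j i) * ∑ ψ ∈ H ×ˢ H, ∏ i ∈ range B, ‖FS (T i) (qd ψ)‖ ^ (2 * k i + j i) ≤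
        ∑ ψ ∈ H ×ˢ H, ∏ i ∈ range B, (‖FS (T i) (qd ψ)‖ ^ (2 * m i) + w i ^ (2 * m i)) := by
      rw [mul_sum]
      refine sum_le_sum fun ψ _ => ?_
      rw [← prod_mul_distrib]
      refine prod_le_prod (fun i _ => ?_) (fun i _ => ?_)
      · have := hw0 i
        positivity
      · rw [hk i]
        exact pw2 (norm_nonneg _) (hw0 i).le (k i) (j i)
    linarith
  -- the upper bound
  set V : ℝ := κ * (∏ i ∈ range B, (3 : ℝ) ^ j i) / (8 * 2 ^ B) with hV
  have hV0 : 0 < V := by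
    rw [hV]
    have : 0 < ∏ i ∈ range B, (3 : ℝ) ^ j i := prod_pos fun i _ => by positivity
    positivity
  have hP0 : 0 < ∏ i ∈ range B, d i ^ (2 * k i + j i) := prod_pos fun i _ => by have := hd0 i; positivity
  have hup : (∑ ψ ∈ H ×ˢ H, D (qd ψ) * ((∏ i ∈ range B, FS (T i) (qd ψ) ^ k i) *
      star (∏ i ∈ range B, FS (T i) (qd ψ) ^ m i))).re ≤
      (H.card : ℝ) * (K * (∏ i ∈ range B, d i ^ (2 * k i + j i))) +
        V * ∑ ψ ∈ H ×ˢ H, ∏ i ∈ range B, ‖FS (T i) (qd ψ)‖ ^ (2 * k i + j i) := by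
    refine (Complex.re_le_norm _).trans ?_
    have h1 : ‖∑ ψ ∈ H ×ˢ H, D (qd ψ) * ((∏ i ∈ range B, FS (T i) (qd ψ) ^ k i) *
        star (∏ i ∈ range B, FS (T i) (qd ψ) ^ m i))‖ ≤
        ∑ ψ ∈ H ×ˢ H, ((if (qd ψ) = 1 then K * (∏ i ∈ range B, d i ^ (2 * k i + j i)) else 0) +
          V * ∏ i ∈ range B, ‖FS (T i) (qd ψ)‖ ^ (2 * k i + j i)) := by
      refine (norm_sum_le _ _).trans (sum_le_sum fun ψ hψ => ?_)
      have h2 : ‖(∏ i ∈ range B, FS (T i) (qd ψ) ^ k i) * star (∏ i ∈ range B, FS (T i) (qd ψ) ^ m i)‖ =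
          ∏ i ∈ range B, ‖FS (T i) (qd ψ)‖ ^ (2 * k i + j i) := by
        rw [norm_mul, norm_star, norm_prod, norm_prod, ← prod_mul_distrib]
        refine prod_congr rfl fun i _ => ?_
        rw [norm_pow, norm_pow, hk i, ← pow_add]
        congr 1
        omega
      rw [norm_mul, h2]
      have hF' : ∏ i ∈ range B, ‖FS (T i) (qd ψ)‖ ^ (2 * k i + j i) ≤ ∏ i ∈ range B, d i ^ (2 * k i + j i) :=
        prod_le_prod (fun i _ => by positivity) fun i _ => pow_le_pow_left₀ (norm_nonneg _) (hdT i (qd ψ)) _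
      have hF'' : 0 ≤ ∏ i ∈ range B, ‖FS (T i) (qd ψ)‖ ^ (2 * k i + j i) := prod_nonneg fun i _ => by positivity
      split_ifs with h
      · have h2 := hK (qd ψ)
        have h3 := mul_le_mul h2 hF' hF'' hK0
        have h4 := mul_nonneg hV0.le hF''
        linarith
      · rw [zero_add]
        refine mul_le_mul_of_nonneg_right ?_ hF''
        rw [mem_product] at hψ
        have h8 := (hcon ψ.1 hψ.1 ψ.2 hψ.2 (fun e => h (by unfold qd; rw [e, mul_inv_cancel]))).le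
        have h9 : ψ.1 * ψ.2⁻¹ = qd ψ := rfl
        rw [h9] at h8
        exact h8
    refine h1.trans ?_
    rw [sum_add_distrib, ← mul_sum]
    refine add_le_add ?_ le_rfl
    rw [← sum_filter, sum_const, nsmul_eq_mul]
    have h12 : ((H ×ˢ H).filter fun ψ => qd ψ = 1).card ≤ H.card := by
      refine card_le_card_of_injOn (fun ψ => ψ.1) ?_ ?_
      · intro a ha
        rw [mem_coe, mem_filter, mem_product] at ha
        exact ha.1.1
      · intro a ha b hb hab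
        rw [mem_coe, mem_filter] at ha hb
        have e1 : a.1 = a.2 := mul_inv_eq_one.mp ha.2
        have e2 : b.1 = b.2 := mul_inv_eq_one.mp hb.2
        have hab' : a.1 = b.1 := hab
        exact Prod.ext hab' (by rw [← e1, ← e2, hab'])
    have h13 : (((H ×ˢ H).filter fun ψ => qd ψ = 1).card : ℝ) ≤ H.card := by exact_mod_cast h12
    exact mul_le_mul_of_nonneg_right h13 (mul_nonneg hK0 hP0.le)
  -- the conclusion
  have hfi : ∀ i, (3 : ℝ) ^ j i * (j i).factorial ≤ w i ^ j i := by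
    intro i
    calc (3 : ℝ) ^ j i * (j i).factorial ≤ 3 ^ j i * (j i : ℝ) ^ j i := by
          gcongr
          exact_mod_cast Nat.factorial_le_pow (j i)
      _ = (3 * (j i : ℝ)) ^ j i := by rw [mul_pow]
      _ ≤ w i ^ j i := pow_le_pow_left₀ (by positivity) (hwj i) _
  have hfac : (∏ i ∈ range B, (3 : ℝ) ^ j i) * F ≤ ∏ i ∈ range B, w i ^ j i := by
    rw [hF, ← prod_mul_distrib]
    exact prod_le_prod (fun i _ => by positivity) fun i _ => hfi i
  have hM0 : 0 < M := by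
    refine lt_of_lt_of_le ?_ hM1
    refine mul_pos (by positivity) (prod_pos fun i _ => by have := hw0 i; positivity)
  -- first part
  have e1 : F / κ * ((H.card : ℝ) * (K * (∏ i ∈ range B, d i ^ (2 * k i + j i)))) ≤ M / 2 := by
    have h1 : F * ∏ i ∈ range B, d i ^ (2 * k i + j i) ≤ ∏ i ∈ range B, d i ^ (2 * m i) := by
      rw [hF, ← prod_mul_distrib]
      refine prod_le_prod (fun i _ => by have := hd0 i; positivity) fun i _ => ?_
      have h2 : ((j i).factorial : ℝ) ≤ d i ^ j i := by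
        have h3 := hfi i
        have h4 : (1 : ℝ) ≤ 3 ^ j i := one_le_pow₀ (by norm_num)
        have h5 : (0 : ℝ) ≤ (j i).factorial := Nat.cast_nonneg _
        have h6 : w i ^ j i ≤ d i ^ j i := pow_le_pow_left₀ (hw0 i).le (hwd i) _
        nlinarith
      have h7 : d i ^ (2 * m i) = d i ^ j i * d i ^ (2 * k i + j i) := by
        rw [← pow_add, hk i]
        congr 1
        omega
      rw [h7]
      have := hd0 i
      exact mul_le_mul_of_nonneg_right h2 (by positivity)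
    have h2 : 2 * K / κ * (F * ∏ i ∈ range B, d i ^ (2 * k i + j i)) ≤ 2 * K / κ * ∏ i ∈ range B, d i ^ (2 * m i) :=
      mul_le_mul_of_nonneg_left h1 (by positivity)
    have h3 := mul_le_mul_of_nonneg_left (h2.trans hsize) hcard.le
    have h4 : (H.card : ℝ) * (2 * K / κ * (F * ∏ i ∈ range B, d i ^ (2 * k i + j i))) ≤ M := by
      refine h3.trans (le_trans (le_of_eq ?_) hM1)
      ring
    have h5 : F / κ * ((H.card : ℝ) * (K * (∏ i ∈ range B, d i ^ (2 * k i + j i)))) =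
        (H.card : ℝ) * (2 * K / κ * (F * ∏ i ∈ range B, d i ^ (2 * k i + j i))) / 2 := by
      field_simp
    rw [h5]
    linarith
  have e2 : F / κ * (V * ∑ ψ ∈ H ×ˢ H, ∏ i ∈ range B, ‖FS (T i) (qd ψ)‖ ^ (2 * k i + j i)) ≤ M / 4 := by
    set S := ∑ ψ ∈ H ×ˢ H, ∏ i ∈ range B, ‖FS (T i) (qd ψ)‖ ^ (2 * k i + j i) with hS
    have hS0 : 0 ≤ S := sum_nonneg fun ψ _ => prod_nonneg fun i _ => by positivity
    have h1 := mul_le_mul_of_nonneg_right hfac hS0
    have h2 : F / κ * (V * S) = (∏ i ∈ range B, (3 : ℝ) ^ j i) * F * S / (8 * 2 ^ B) := by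
      rw [hV]
      field_simp
    rw [h2, div_le_iff₀ (by positivity)]
    have h3 : (0 : ℝ) < 2 ^ B := by positivity
    nlinarith
  have e3 : M ≤ F / κ * ((H.card : ℝ) * (K * (∏ i ∈ range B, d i ^ (2 * k i + j i))) +
      V * ∑ ψ ∈ H ×ˢ H, ∏ i ∈ range B, ‖FS (T i) (qd ψ)‖ ^ (2 * k i + j i)) :=
    hpos.trans (mul_le_mul_of_nonneg_left hup (by positivity))
  rw [mul_add] at e3
  linarith


theorem core3 (H : Finset (DirichletCharacter ℂ q)) (hne : H.Nonempty) {T : ℕ → Finset ℕ} {X B : ℕ}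
    (hT : ∀ i < B, ∀ p ∈ T i, p.Prime) (hTX : ∀ i < B, ∀ p ∈ T i, p ≤ X) (hXq : X < q)
    (hd : ∀ i < B, ∀ i' < B, i ≠ i' → Disjoint (T i) (T i'))
    {j m : ℕ → ℕ} (hjm : ∀ i < B, j i ≤ m i)
    {D : DirichletCharacter ℂ q → ℂ} {κ K : ℝ} (hκ : 0 < κ) (hK : ∀ χ, ‖D χ‖ ≤ K)
    (hD : ∀ A : Finset ℕ, (∀ a ∈ A, 1 ≤ a ∧ a ≤ X ^ (∑ i ∈ range B, j i)) →
      Dom (fun χ : DirichletCharacter ℂ q => (κ : ℂ) * FS A χ) D)
    {w d : ℕ → ℝ} (hw0 : ∀ i < B, 0 < w i) (hwj : ∀ i < B, 3 * (j i : ℝ) ≤ w i)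
    (hw : ∀ i < B, w i ^ (2 * m i) ≤ ((m i).factorial : ℝ) ^ 2 * es (T i) (fun p => 1 / (p : ℝ)) (m i))
    (hwd : ∀ i < B, w i ≤ d i) (hdT : ∀ i < B, ∀ χ : DirichletCharacter ℂ q, ‖FS (T i) χ‖ ≤ d i)
    (hsize : 2 * K / κ * ∏ i ∈ range B, d i ^ (2 * m i) ≤ (H.card : ℝ) * ∏ i ∈ range B, w i ^ (2 * m i)) :
    ∃ χ ∈ H, ∃ χ' ∈ H, χ ≠ χ' ∧ κ * (∏ i ∈ range B, (3 : ℝ) ^ j i) / (8 * 2 ^ B) ≤ ‖D (χ * χ'⁻¹)‖ := by
  have e1 : ∏ i ∈ range B, (3 : ℝ) ^ j i = ∏ i ∈ range B, (3 : ℝ) ^ (if i < B then j i else 0) :=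
    prod_congr rfl fun i hi => by rw [if_pos (mem_range.mp hi)]
  have e2 : ∏ i ∈ range B, d i ^ (2 * m i) =
      ∏ i ∈ range B, (if i < B then d i else 1) ^ (2 * (if i < B then m i else 0)) :=
    prod_congr rfl fun i hi => by rw [if_pos (mem_range.mp hi), if_pos (mem_range.mp hi)]
  have e3 : ∏ i ∈ range B, w i ^ (2 * m i) =
      ∏ i ∈ range B, (if i < B then w i else 1) ^ (2 * (if i < B then m i else 0)) :=
    prod_congr rfl fun i hi => by rw [if_pos (mem_range.mp hi), if_pos (mem_range.mp hi)]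
  have e4 : ∑ i ∈ range B, j i = ∑ i ∈ range B, (if i < B then j i else 0) :=
    sum_congr rfl fun i hi => by rw [if_pos (mem_range.mp hi)]
  rw [e2, e3] at hsize
  rw [e4] at hD
  rw [e1]
  refine core2 H hne (T := fun i => if i < B then T i else ∅) (X := X) ?_ ?_ hXq ?_
    (j := fun i => if i < B then j i else 0) (m := fun i => if i < B then m i else 0) ?_ hκ hK hD
    (w := fun i => if i < B then w i else 1) (d := fun i => if i < B then d i else 1) ?_ ?_ ?_ ?_ ?_ hsize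
  · intro i p hp
    by_cases h : i < B
    · simp only [if_pos h] at hp
      exact hT i h p hp
    · simp [if_neg h] at hp
  · intro i p hp
    by_cases h : i < B
    · simp only [if_pos h] at hp
      exact hTX i h p hp
    · simp [if_neg h] at hp
  · intro i i' hne
    by_cases h : i < B
    · by_cases h' : i' < B
      · simp only [if_pos h, if_pos h']
        exact hd i h i' h' hne
      · simp [if_neg h']
    · simp [if_neg h]
  · intro i
    by_cases h : i < B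
    · simp only [if_pos h]
      exact hjm i h
    · simp [if_neg h]
  · intro i
    by_cases h : i < B
    · simp only [if_pos h]
      exact hw0 i h
    · simp [if_neg h]
  · intro i
    by_cases h : i < B
    · simp only [if_pos h]
      exact hwj i h
    · simp [if_neg h]
  · intro i hi
    simp only [if_pos (mem_range.mp hi)]
    exact hw i (mem_range.mp hi)
  · intro i
    by_cases h : i < B
    · simp only [if_pos h]
      exact hwd i h
    · simp [if_neg h]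
  · intro i χ
    by_cases h : i < B
    · simp only [if_pos h]
      exact hdT i h χ
    · simp [if_neg h, FS]


end

end Pool.Agent.H86.ZC
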