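import Pool.Graph.R_pool_sql_team_seeded_843ab51a.V1143.EC.Ana

/-!
# Dirichlet polynomials on the critical line
-/

set_option autoImplicit false

open Finset MeasureTheory

namespace Pool.Agent.H86.ZC

open Pool.Agent.V1143.EC (chi_zero Icc_zero A_bound)

variable {q : ℕ} [hq : Fact q.Prime]

/-- the Dirichlet polynomial -/
noncomputable def FN (N : ℕ) (χ : DirichletCharacter ℂ q) (s : ℂ) : ℂ :=
  ∑ n ∈ Icc 1 N, χ (n : ZMod q) * (n : ℂ) ^ (-s)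

theorem abel_s (χ : DirichletCharacter ℂ q) (N : ℕ) {s : ℂ} (hs : s.re = 1 / 2) :
    FN N χ s = (∑ k ∈ Icc 1 N, χ (k : ZMod q)) * (N : ℂ) ^ (-s) +
      s * ∫ t in Set.Ioc (1 : ℝ) N, (∑ k ∈ Icc 1 ⌊t⌋₊, χ (k : ZMod q)) * (t : ℂ) ^ (-s - 1) := by
  have hs0 : -s ≠ 0 := by
    intro h
    have := congrArg Complex.re h
    rw [Complex.neg_re, hs, Complex.zero_re] at this
    norm_num at this
  have hs1 : -s - 1 ≠ 0 := by
    intro h
    have := congrArg Complex.re h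
    rw [Complex.sub_re, Complex.neg_re, hs, Complex.zero_re, Complex.one_re] at this
    norm_num at this
  set f : ℝ → ℂ := fun t => (t : ℂ) ^ (-s) with hf
  have hder : ∀ t : ℝ, 0 < t → HasDerivAt f (-s * (t : ℂ) ^ (-s - 1)) t := by
    intro t ht
    exact hasDerivAt_ofReal_cpow_const (x := t) ht.ne' (r := -s) hs0
  have hcont : ContinuousOn (fun t : ℝ => -s * (t : ℂ) ^ (-s - 1)) (Set.Icc (1 : ℝ) N) := by
    intro t ht
    have ht0 : 0 < t := lt_of_lt_of_le one_pos ht.1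
    have h1 := hasDerivAt_ofReal_cpow_const (x := t) ht0.ne' (r := -s - 1) hs1
    exact (h1.continuousAt.const_mul _).continuousWithinAt
  have hint : IntegrableOn (deriv f) (Set.Icc (1 : ℝ) N) := by
    refine (hcont.integrableOn_Icc).congr_fun (fun t ht => ?_) measurableSet_Icc
    exact ((hder t (lt_of_lt_of_le one_pos ht.1)).deriv).symm
  have h1 := sum_mul_eq_sub_integral_mul₀' (f := f) (fun k : ℕ => χ (k : ZMod q)) (chi_zero χ) N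
    (fun t ht => (hder t (lt_of_lt_of_le one_pos ht.1)).differentiableAt) hint
  have h2 : ∫ t in Set.Ioc (1 : ℝ) N, deriv f t * ∑ k ∈ Icc 0 ⌊t⌋₊, χ (k : ZMod q) =
      -(s * ∫ t in Set.Ioc (1 : ℝ) N,
      (∑ k ∈ Icc 1 ⌊t⌋₊, χ (k : ZMod q)) * (t : ℂ) ^ (-s - 1)) := by
    rw [← integral_const_mul, ← integral_neg]
    refine setIntegral_congr_fun measurableSet_Ioc fun t ht => ?_
    show deriv f t * ∑ k ∈ Icc 0 ⌊t⌋₊, χ (k : ZMod q) = -(s * ((∑ k ∈ Icc 1 ⌊t⌋₊,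
      χ (k : ZMod q)) * (t : ℂ) ^ (-s - 1)))
    rw [(hder t (lt_trans one_pos ht.1)).deriv, Icc_zero]
    ring
  rw [h2] at h1
  have h3 : ∑ k ∈ Icc 0 N, f k * χ (k : ZMod q) = FN N χ s := by
    rw [Icc_eq_cons_Ioc (Nat.zero_le _), sum_cons, chi_zero, mul_zero, zero_add]
    unfold FN
    refine sum_congr rfl fun k _ => ?_
    rw [hf]
    push_cast
    ring
  rw [h3, Icc_zero] at h1
  rw [h1, hf]
  push_cast
  ring

theorem kernel_int {N : ℝ} (hN : 0 < N) : ∫ u in Set.Ioi N, u ^ (-(3 / 2) : ℝ) = 2 * N ^ (-(1 / 2) : ℝ) := by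
  rw [integral_Ioi_rpow_of_lt (by norm_num) hN]
  rw [show (-(3 / 2) + 1 : ℝ) = -(1 / 2) by norm_num]
  ring

section
variable {χ : DirichletCharacter ℂ q} {s : ℂ} {K : ℝ}

theorem pt_bound (hK : ∀ n : ℕ, ‖∑ k ∈ Icc 1 n, χ (k : ZMod q)‖ ≤ K) (hs : s.re = 1 / 2) {u : ℝ} (hu : 0 < u) :
    ‖(∑ k ∈ Icc 1 ⌊u⌋₊, χ (k : ZMod q)) * (u : ℂ) ^ (-s - 1)‖ ≤ K * u ^ (-(3 / 2) : ℝ) := by
  rw [norm_mul, Complex.norm_cpow_eq_rpow_re_of_pos hu]
  have : (-s - 1).re = -(3 / 2) := by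
    rw [Complex.sub_re, Complex.neg_re, hs, Complex.one_re]
    norm_num
  rw [this]
  exact mul_le_mul_of_nonneg_right (hK _) (by positivity)

theorem meas_int (χ : DirichletCharacter ℂ q) (s : ℂ) (μ : Measure ℝ) :
    AEStronglyMeasurable (fun u : ℝ => (∑ k ∈ Icc 1 ⌊u⌋₊, χ (k : ZMod q)) * (u : ℂ) ^ (-s - 1)) μ := by
  have hAm : Measurable (fun u : ℝ => ∑ k ∈ Icc 1 ⌊u⌋₊, χ (k : ZMod q)) :=
    (measurable_from_nat (f := fun n : ℕ => ∑ k ∈ Finset.Icc 1 n, χ (k : ZMod q))).comp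
      Nat.measurable_floor
  exact (hAm.mul (Complex.measurable_ofReal.pow_const _)).aestronglyMeasurable

theorem int_Ioi (hK : ∀ n : ℕ, ‖∑ k ∈ Icc 1 n, χ (k : ZMod q)‖ ≤ K) (hs : s.re = 1 / 2) {a : ℝ} (ha : 0 < a) :
    IntegrableOn (fun u : ℝ => (∑ k ∈ Icc 1 ⌊u⌋₊, χ (k : ZMod q)) * (u : ℂ) ^ (-s - 1)) (Set.Ioi a) := by
  refine Integrable.mono' ((integrableOn_Ioi_rpow_of_lt (show (-(3 / 2) : ℝ) < -1 by norm_num)
    ha).const_mul K) (meas_int χ s _) ?_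
  exact (ae_restrict_iff' measurableSet_Ioi).2
    (Filter.Eventually.of_forall fun u hu => pt_bound hK hs (lt_trans ha hu))

theorem norm_Ioi (hK : ∀ n : ℕ, ‖∑ k ∈ Icc 1 n, χ (k : ZMod q)‖ ≤ K) (hs : s.re = 1 / 2) {a : ℝ} (ha : 0 < a) :
    ‖∫ u in Set.Ioi a, (∑ k ∈ Icc 1 ⌊u⌋₊, χ (k : ZMod q)) * (u : ℂ) ^ (-s - 1)‖ ≤ 2 * K * a ^ (-(1 / 2) : ℝ) := by
  refine (norm_integral_le_of_norm_le ((integrableOn_Ioi_rpow_of_lt (show (-(3 / 2) : ℝ) < -1 by norm_num)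
    ha).const_mul K) ((ae_restrict_iff' measurableSet_Ioi).2
      (Filter.Eventually.of_forall fun u hu => pt_bound hK hs (lt_trans ha hu)))).trans (le_of_eq ?_)
  rw [integral_const_mul, kernel_int ha]
  ring

theorem norm_Npow {N : ℕ} (hN : 1 ≤ N) (hs : s.re = 1 / 2) : ‖(N : ℂ) ^ (-s)‖ = (N : ℝ) ^ (-(1 / 2) : ℝ) := by
  rw [Complex.norm_natCast_cpow_of_pos hN, Complex.neg_re, hs]

theorem one_le_two_norm (hs : s.re = 1 / 2) : 1 ≤ 2 * ‖s‖ := by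
  have h := Complex.abs_re_le_norm s
  rw [hs, abs_of_pos (by norm_num)] at h
  linarith

/-- the Dirichlet polynomials approximate the `L`-function -/
theorem approx_s (hχ : χ ≠ 1) (hK : ∀ n : ℕ, ‖∑ k ∈ Icc 1 n, χ (k : ZMod q)‖ ≤ K) (hs : s.re = 1 / 2) {N : ℕ} (hN : 1 ≤ N) :
    ‖DirichletCharacter.LFunction χ s - FN N χ s‖ ≤ 4 * ‖s‖ * K * (N : ℝ) ^ (-(1 / 2) : ℝ) := by
  have hN0 : (0 : ℝ) < N := by exact_mod_cast hN
  have hN1 : (1 : ℝ) ≤ N := by exact_mod_cast hN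
  have hK0 : 0 ≤ K := (norm_nonneg _).trans (hK 0)
  have h1 := H370.DL.L_integral (χ := χ) hχ (s := s) (by rw [hs]; norm_num)
  have hsplit : ∫ u in Set.Ioi (1 : ℝ), (∑ k ∈ Icc 1 ⌊u⌋₊, χ (k : ZMod q)) * (u : ℂ) ^ (-s - 1) =
      (∫ u in Set.Ioc (1 : ℝ) N, (∑ k ∈ Icc 1 ⌊u⌋₊, χ (k : ZMod q)) * (u : ℂ) ^ (-s - 1)) +
      ∫ u in Set.Ioi (N : ℝ), (∑ k ∈ Icc 1 ⌊u⌋₊, χ (k : ZMod q)) * (u : ℂ) ^ (-s - 1) := by
    rw [← Set.Ioc_union_Ioi_eq_Ioi hN1, setIntegral_union Set.Ioc_disjoint_Ioi_same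
      measurableSet_Ioi ((int_Ioi hK hs one_pos).mono_set (Set.Ioc_subset_Ioi_self))
      ((int_Ioi hK hs one_pos).mono_set (Set.Ioi_subset_Ioi hN1))]
  have h2 : DirichletCharacter.LFunction χ s - FN N χ s =
      s * (∫ u in Set.Ioi (N : ℝ), (∑ k ∈ Icc 1 ⌊u⌋₊, χ (k : ZMod q)) * (u : ℂ) ^ (-s - 1)) -
        (∑ k ∈ Icc 1 N, χ (k : ZMod q)) * (N : ℂ) ^ (-s) := by
    rw [h1, abel_s χ N hs, hsplit]
    ring
  rw [h2]
  refine (norm_sub_le _ _).trans ?_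
  rw [norm_mul, norm_mul, norm_Npow hN hs]
  have h3 := norm_Ioi hK hs hN0
  have h4 := one_le_two_norm hs
  have h5 : 0 ≤ (N : ℝ) ^ (-(1 / 2) : ℝ) := by positivity
  have h6 : ‖∑ k ∈ Icc 1 N, χ (k : ZMod q)‖ * (N : ℝ) ^ (-(1 / 2) : ℝ) ≤ K * (N : ℝ) ^ (-(1 / 2) : ℝ) :=
    mul_le_mul_of_nonneg_right (hK N) h5
  have h7 : K * (N : ℝ) ^ (-(1 / 2) : ℝ) ≤ 2 * ‖s‖ * (K * (N : ℝ) ^ (-(1 / 2) : ℝ)) :=
    le_mul_of_one_le_left (by positivity) h4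
  have h8 := mul_le_mul_of_nonneg_left h3 (norm_nonneg s)
  nlinarith

/-- the trivial bound for the Dirichlet polynomials -/
theorem bound_s (hK : ∀ n : ℕ, ‖∑ k ∈ Icc 1 n, χ (k : ZMod q)‖ ≤ K) (hs : s.re = 1 / 2) {N : ℕ} (hN : 1 ≤ N) :
    ‖FN N χ s‖ ≤ 4 * ‖s‖ * K := by
  have hN0 : (0 : ℝ) < N := by exact_mod_cast hN
  have hN1 : (1 : ℝ) ≤ N := by exact_mod_cast hN
  have hK0 : 0 ≤ K := (norm_nonneg _).trans (hK 0)
  rw [abel_s χ N hs]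
  refine (norm_add_le _ _).trans ?_
  rw [norm_mul, norm_mul, norm_Npow hN hs]
  have h5 : (N : ℝ) ^ (-(1 / 2) : ℝ) ≤ 1 := Real.rpow_le_one_of_one_le_of_nonpos hN1 (by norm_num)
  have h6 : ‖∑ k ∈ Icc 1 N, χ (k : ZMod q)‖ * (N : ℝ) ^ (-(1 / 2) : ℝ) ≤ K * 1 :=
    mul_le_mul (hK N) h5 (by positivity) hK0
  have h7 : K ≤ 2 * ‖s‖ * K := le_mul_of_one_le_left hK0 (one_le_two_norm hs)
  have h3 : ‖∫ t in Set.Ioc (1 : ℝ) N, (∑ k ∈ Icc 1 ⌊t⌋₊, χ (k : ZMod q)) * (t : ℂ) ^ (-s - 1)‖ ≤ 2 * K := by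
    have hi : IntegrableOn (fun u : ℝ => K * u ^ (-(3 / 2) : ℝ)) (Set.Ioi 1) :=
      (integrableOn_Ioi_rpow_of_lt (show (-(3 / 2) : ℝ) < -1 by norm_num) one_pos).const_mul K
    calc _ ≤ ∫ u in Set.Ioc (1 : ℝ) N, K * u ^ (-(3 / 2) : ℝ) := by
          refine norm_integral_le_of_norm_le (hi.mono_set Set.Ioc_subset_Ioi_self) ?_
          exact (ae_restrict_iff' measurableSet_Ioc).2
            (Filter.Eventually.of_forall fun u hu => pt_bound hK hs (lt_trans one_pos hu.1))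
      _ ≤ ∫ u in Set.Ioi (1 : ℝ), K * u ^ (-(3 / 2) : ℝ) := by
          refine setIntegral_mono_set hi ?_ (Set.Ioc_subset_Ioi_self.eventuallyLE)
          exact (ae_restrict_iff' measurableSet_Ioi).2
            (Filter.Eventually.of_forall fun u hu => by
              have : (0 : ℝ) < u := lt_trans one_pos hu
              show 0 ≤ K * u ^ (-(3 / 2) : ℝ)
              positivity)
      _ = 2 * K := by
          rw [integral_const_mul, kernel_int one_pos, Real.one_rpow]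
          ring
  have h8 := mul_le_mul_of_nonneg_left h3 (norm_nonneg s)
  nlinarith

end

end Pool.Agent.H86.ZC
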