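import Pool.Agent.H86.ZC.B
import Pool.Agent.H86.ZC.C

/-!
# Gaussian averages of Dirichlet polynomials on the critical line
-/

set_option autoImplicit false

open Finset MeasureTheory

namespace Pool.Agent.H86.ZC

open Pool.Agent.X24.Coset (rs FS Dom Pos rs_nonneg)

/-- the weight -/
noncomputable def gw (W : ℝ) (n : ℕ) : ℝ := Real.exp (-(Real.log n) ^ 2 / (4 * W))

section
variable {q : ℕ} [hq : Fact q.Prime]

/-- the smoothed polynomial -/
noncomputable def DG (W : ℝ) (N : ℕ) (χ : DirichletCharacter ℂ q) : ℂ :=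
  ∑ n ∈ Icc 1 N, ((gw W n * rs n : ℝ) : ℂ) * χ (n : ZMod q)

omit hq in
theorem cpow_eq {n : ℕ} (hn : 1 ≤ n) (u : ℝ) :
    (n : ℂ) ^ (-(1 / 2 + u * Complex.I : ℂ)) = (rs n : ℂ) * Complex.exp (Complex.I * ((-Real.log n : ℝ) : ℂ) * u) := by
  have hn0 : (0 : ℝ) < n := by exact_mod_cast hn
  have hnc : (n : ℂ) ≠ 0 := by exact_mod_cast hn0.ne'
  unfold rs
  rw [Complex.ofReal_cpow hn0.le, Complex.ofReal_natCast, Complex.cpow_def_of_ne_zero hnc, Complex.cpow_def_of_ne_zero hnc,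
    ← Complex.exp_add, ← Complex.natCast_log]
  congr 1
  push_cast
  ring

omit hq in
theorem gauss_n {W : ℝ} (hW : 0 < W) {n : ℕ} (hn : 1 ≤ n) :
    ∫ u : ℝ, (n : ℂ) ^ (-(1 / 2 + u * Complex.I : ℂ)) * Complex.exp (-(W : ℂ) * u ^ 2) =
      ((√(Real.pi / W) * (gw W n * rs n) : ℝ) : ℂ) := by
  have h1 := fourierIntegral_gaussian (b := (W : ℂ)) (by simpa using hW) ((-Real.log n : ℝ) : ℂ)
  have h2 : ∀ u : ℝ, (n : ℂ) ^ (-(1 / 2 + u * Complex.I : ℂ)) * Complex.exp (-(W : ℂ) * u ^ 2) =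
      (rs n : ℂ) * (Complex.exp (Complex.I * ((-Real.log n : ℝ) : ℂ) * u) * Complex.exp (-(W : ℂ) * u ^ 2)) := by
    intro u
    rw [cpow_eq hn]
    ring
  simp_rw [h2]
  rw [integral_const_mul, h1]
  have h3 : ((Real.pi : ℂ) / (W : ℂ)) ^ (1 / 2 : ℂ) = ((√(Real.pi / W) : ℝ) : ℂ) := by
    rw [Real.sqrt_eq_rpow, Complex.ofReal_cpow (by positivity)]
    push_cast
    rfl
  rw [h3]
  unfold gw
  push_cast
  rw [neg_sq]
  ring

omit hq in
theorem integrable_n {W : ℝ} (hW : 0 < W) {n : ℕ} (hn : 1 ≤ n) :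
    Integrable (fun u : ℝ => (n : ℂ) ^ (-(1 / 2 + u * Complex.I : ℂ)) * Complex.exp (-(W : ℂ) * u ^ 2)) := by
  have h1 := integrable_cexp_quadratic (b := (W : ℂ)) (by simpa using hW) (Complex.I * ((-Real.log n : ℝ) : ℂ)) 0
  have h2 : (fun u : ℝ => (n : ℂ) ^ (-(1 / 2 + u * Complex.I : ℂ)) * Complex.exp (-(W : ℂ) * u ^ 2)) =
      fun u : ℝ => (rs n : ℂ) * Complex.exp (-(W : ℂ) * u ^ 2 + Complex.I * ((-Real.log n : ℝ) : ℂ) * u + 0) := by
    funext u
    rw [cpow_eq hn, mul_assoc, ← Complex.exp_add]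
    congr 2
    ring
  rw [h2]
  exact h1.const_mul _

/-- the Gaussian average of the Dirichlet polynomial -/
theorem gauss_FN {W : ℝ} (hW : 0 < W) (N : ℕ) (χ : DirichletCharacter ℂ q) :
    ∫ u : ℝ, FN N χ (1 / 2 + u * Complex.I) * Complex.exp (-(W : ℂ) * u ^ 2) =
      ((√(Real.pi / W) : ℝ) : ℂ) * DG W N χ := by
  unfold FN DG
  simp_rw [sum_mul]
  rw [integral_finsetSum]
  · rw [mul_sum]
    refine sum_congr rfl fun n hn => ?_
    rw [mem_Icc] at hn
    simp_rw [mul_assoc]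
    rw [integral_const_mul, gauss_n hW hn.1]
    push_cast
    ring
  · intro n hn
    rw [mem_Icc] at hn
    simp_rw [mul_assoc]
    exact (integrable_n hW hn.1).const_mul _

omit hq in
theorem half_le (u : ℝ) : 1 / 2 + |u| ≤ 2 * Real.exp (u ^ 2 / 8) := by
  have h1 := Real.add_one_le_exp (u ^ 2 / 8)
  have h2 : |u| ^ 2 = u ^ 2 := sq_abs u
  nlinarith [sq_nonneg (|u| - 2)]

omit hq in
theorem norm_s_le (u : ℝ) : ‖(1 / 2 + u * Complex.I : ℂ)‖ ≤ 2 * Real.exp (u ^ 2 / 8) := by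
  refine le_trans ?_ (half_le u)
  refine (norm_add_le _ _).trans (le_of_eq ?_)
  rw [norm_mul, Complex.norm_I, mul_one, Complex.norm_real, Real.norm_eq_abs]
  congr 1
  norm_num

/-- the smoothed polynomial is bounded by the `L`-function near the real axis -/
theorem DG_le {χ : DirichletCharacter ℂ q} (hχ : χ ≠ 1) {K M W A : ℝ} (hW : 1 ≤ W) (hA : 0 ≤ A) (hM : 0 ≤ M)
    (hK : ∀ n : ℕ, ‖∑ k ∈ Icc 1 n, χ (k : ZMod q)‖ ≤ K) {N : ℕ} (hN : 1 ≤ N)
    (hL : ∀ u : ℝ, |u| ≤ A → ‖DirichletCharacter.LFunction χ (1 / 2 + u * Complex.I)‖ ≤ M) :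
    ‖DG W N χ‖ ≤ M + 24 * K * ((N : ℝ) ^ (-(1 / 2) : ℝ) + Real.exp (-(3 / 4 * W * A ^ 2))) := by
  have hW0 : 0 < W := by linarith
  have hK0 : 0 ≤ K := (norm_nonneg _).trans (hK 0)
  set η : ℝ := (N : ℝ) ^ (-(1 / 2) : ℝ) + Real.exp (-(3 / 4 * W * A ^ 2)) with hη
  have hN' : 0 ≤ (N : ℝ) ^ (-(1 / 2) : ℝ) := by positivity
  have hη0 : 0 ≤ η := by positivity
  have hs : ∀ u : ℝ, (1 / 2 + u * Complex.I : ℂ).re = 1 / 2 := by
    intro u
    simp
  have hpt : ∀ u : ℝ, ‖FN N χ (1 / 2 + u * Complex.I) * Complex.exp (-(W : ℂ) * u ^ 2)‖ ≤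
      M * Real.exp (-W * u ^ 2) + 8 * K * η * Real.exp (-(W / 8) * u ^ 2) := by
    intro u
    have he : ‖Complex.exp (-(W : ℂ) * u ^ 2)‖ = Real.exp (-W * u ^ 2) := by
      rw [Complex.norm_exp]
      congr 1
      have : (-(W : ℂ) * u ^ 2) = ((-W * u ^ 2 : ℝ) : ℂ) := by push_cast; ring
      rw [this, Complex.ofReal_re]
    rw [norm_mul, he]
    have hns := norm_s_le u
    have hu2 : 0 ≤ u ^ 2 := sq_nonneg u
    rcases le_or_gt |u| A with h | h
    · have h1 := approx_s hχ hK (hs u) hN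
      have h2 := hL u h
      have h3 : ‖FN N χ (1 / 2 + u * Complex.I)‖ ≤ M + 4 * ‖(1 / 2 + u * Complex.I : ℂ)‖ * K * (N : ℝ) ^ (-(1 / 2) : ℝ) := by
        have h4 := norm_sub_norm_le (FN N χ (1 / 2 + u * Complex.I)) (DirichletCharacter.LFunction χ (1 / 2 + u * Complex.I))
        rw [norm_sub_rev] at h4
        linarith
      have h5 : 4 * ‖(1 / 2 + u * Complex.I : ℂ)‖ * K * (N : ℝ) ^ (-(1 / 2) : ℝ) ≤ 8 * K * η * Real.exp (u ^ 2 / 8) := by
        have h6 : (N : ℝ) ^ (-(1 / 2) : ℝ) ≤ η := by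
          rw [hη]
          have := Real.exp_pos (-(3 / 4 * W * A ^ 2))
          linarith
        calc 4 * ‖(1 / 2 + u * Complex.I : ℂ)‖ * K * (N : ℝ) ^ (-(1 / 2) : ℝ)
            ≤ 4 * (2 * Real.exp (u ^ 2 / 8)) * K * η := by gcongr
          _ = _ := by ring
      have h6 : Real.exp (u ^ 2 / 8) * Real.exp (-W * u ^ 2) ≤ Real.exp (-(W / 8) * u ^ 2) := by
        rw [← Real.exp_add]
        apply Real.exp_le_exp.mpr
        nlinarith
      calc ‖FN N χ (1 / 2 + u * Complex.I)‖ * Real.exp (-W * u ^ 2)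
          ≤ (M + 8 * K * η * Real.exp (u ^ 2 / 8)) * Real.exp (-W * u ^ 2) := by
            refine mul_le_mul_of_nonneg_right (h3.trans ?_) (Real.exp_pos _).le
            linarith
        _ = M * Real.exp (-W * u ^ 2) + 8 * K * η * (Real.exp (u ^ 2 / 8) * Real.exp (-W * u ^ 2)) := by ring
        _ ≤ _ := by gcongr
    · have h1 := bound_s hK (hs u) hN
      have h2 : A ^ 2 ≤ u ^ 2 := by
        rw [← sq_abs u]
        exact pow_le_pow_left₀ hA h.le 2
      have h3 : Real.exp (u ^ 2 / 8) * Real.exp (-W * u ^ 2) ≤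
          Real.exp (-(3 / 4 * W * A ^ 2)) * Real.exp (-(W / 8) * u ^ 2) := by
        rw [← Real.exp_add, ← Real.exp_add]
        apply Real.exp_le_exp.mpr
        nlinarith [mul_le_mul_of_nonneg_left h2 hW0.le]
      have h4 : Real.exp (-(3 / 4 * W * A ^ 2)) ≤ η := by
        rw [hη]
        linarith
      calc ‖FN N χ (1 / 2 + u * Complex.I)‖ * Real.exp (-W * u ^ 2)
          ≤ (4 * (2 * Real.exp (u ^ 2 / 8)) * K) * Real.exp (-W * u ^ 2) := by
            refine mul_le_mul_of_nonneg_right (h1.trans ?_) (Real.exp_pos _).le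
            gcongr
        _ = 8 * K * (Real.exp (u ^ 2 / 8) * Real.exp (-W * u ^ 2)) := by ring
        _ ≤ 8 * K * (Real.exp (-(3 / 4 * W * A ^ 2)) * Real.exp (-(W / 8) * u ^ 2)) := by gcongr
        _ ≤ 8 * K * (η * Real.exp (-(W / 8) * u ^ 2)) := by gcongr
        _ = 8 * K * η * Real.exp (-(W / 8) * u ^ 2) := by ring
        _ ≤ _ := by
            have : 0 ≤ M * Real.exp (-W * u ^ 2) := by positivity
            linarith
  have hi1 : Integrable fun u : ℝ => Real.exp (-W * u ^ 2) := integrable_exp_neg_mul_sq hW0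
  have hi2 : Integrable fun u : ℝ => Real.exp (-(W / 8) * u ^ 2) := integrable_exp_neg_mul_sq (by positivity)
  have h1 : ‖∫ u : ℝ, FN N χ (1 / 2 + u * Complex.I) * Complex.exp (-(W : ℂ) * u ^ 2)‖ ≤
      ∫ u : ℝ, (M * Real.exp (-W * u ^ 2) + 8 * K * η * Real.exp (-(W / 8) * u ^ 2)) :=
    norm_integral_le_of_norm_le ((hi1.const_mul M).add (hi2.const_mul _)) (Filter.Eventually.of_forall hpt)
  rw [gauss_FN hW0, integral_add (hi1.const_mul M) (hi2.const_mul _), integral_const_mul, integral_const_mul,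
    integral_gaussian, integral_gaussian, norm_mul, Complex.norm_real, Real.norm_eq_abs, abs_of_nonneg (Real.sqrt_nonneg _)] at h1
  have h2 : √(Real.pi / (W / 8)) ≤ 3 * √(Real.pi / W) := by
    have h3 : Real.pi / (W / 8) = 8 * (Real.pi / W) := by field_simp
    rw [h3, Real.sqrt_mul (by norm_num)]
    refine mul_le_mul_of_nonneg_right ?_ (Real.sqrt_nonneg _)
    rw [Real.sqrt_le_left (by norm_num)]
    norm_num
  have h3 : 0 < √(Real.pi / W) := Real.sqrt_pos.mpr (by positivity)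
  have h4 : √(Real.pi / W) * ‖DG W N χ‖ ≤ √(Real.pi / W) * (M + 24 * K * η) := by
    refine h1.trans ?_
    have h5 : 8 * K * η * √(Real.pi / (W / 8)) ≤ 8 * K * η * (3 * √(Real.pi / W)) := by gcongr
    linarith
  exact le_of_mul_le_mul_left h4 h3

omit hq in
theorem gw_nonneg (W : ℝ) (n : ℕ) : 0 ≤ gw W n := (Real.exp_pos _).le

/-- the constant in the trivial bound -/
noncomputable def C1 : ℝ := ∑' n : ℕ, (n : ℝ) ^ (-(11 / 10) : ℝ)

omit hq in
theorem C1_summable : Summable (fun n : ℕ => (n : ℝ) ^ (-(11 / 10) : ℝ)) :=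
  Real.summable_nat_rpow.mpr (by norm_num)

omit hq in
theorem C1_nonneg : 0 ≤ C1 := tsum_nonneg fun n => by positivity

omit hq in
theorem term_le {W : ℝ} (hW : 0 < W) {n : ℕ} (hn : 1 ≤ n) :
    gw W n * rs n ≤ Real.exp (9 / 25 * W) * (n : ℝ) ^ (-(11 / 10) : ℝ) := by
  have hn0 : (0 : ℝ) < n := by exact_mod_cast hn
  unfold gw rs
  rw [Real.rpow_def_of_pos hn0, Real.rpow_def_of_pos hn0, ← Real.exp_add, ← Real.exp_add]
  apply Real.exp_le_exp.mpr
  have h1 : 3 / 5 * Real.log n ≤ 9 / 25 * W + Real.log n ^ 2 / (4 * W) := by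
    have h2 : 9 / 25 * W + Real.log n ^ 2 / (4 * W) - 3 / 5 * Real.log n = (Real.log n - 6 / 5 * W) ^ 2 / (4 * W) := by
      field_simp
      ring
    have h3 : 0 ≤ (Real.log n - 6 / 5 * W) ^ 2 / (4 * W) := by positivity
    linarith
  have h4 : -Real.log n ^ 2 / (4 * W) = -(Real.log n ^ 2 / (4 * W)) := by ring
  rw [h4]
  linarith

/-- the trivial bound for the smoothed polynomial -/
theorem DG_trivial {W : ℝ} (hW : 0 < W) (N : ℕ) (χ : DirichletCharacter ℂ q) :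
    ‖DG W N χ‖ ≤ C1 * Real.exp (9 / 25 * W) := by
  unfold DG
  calc ‖∑ n ∈ Icc 1 N, ((gw W n * rs n : ℝ) : ℂ) * χ (n : ZMod q)‖
      ≤ ∑ n ∈ Icc 1 N, Real.exp (9 / 25 * W) * (n : ℝ) ^ (-(11 / 10) : ℝ) := by
        refine (norm_sum_le _ _).trans (sum_le_sum fun n hn => ?_)
        rw [mem_Icc] at hn
        rw [norm_mul, Complex.norm_real, Real.norm_eq_abs, abs_of_nonneg (mul_nonneg (gw_nonneg W n) (rs_nonneg n))]
        refine le_trans ?_ (term_le hW hn.1)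
        exact mul_le_of_le_one_right (mul_nonneg (gw_nonneg W n) (rs_nonneg n)) (DirichletCharacter.norm_le_one _ _)
    _ = Real.exp (9 / 25 * W) * ∑ n ∈ Icc 1 N, (n : ℝ) ^ (-(11 / 10) : ℝ) := by rw [mul_sum]
    _ ≤ Real.exp (9 / 25 * W) * C1 := by
        refine mul_le_mul_of_nonneg_left ?_ (Real.exp_pos _).le
        exact C1_summable.sum_le_tsum _ fun n _ => by positivity
    _ = _ := mul_comm _ _

/-- the smoothed polynomial dominates the short sums -/
theorem DG_dom {W Λ : ℝ} (hW : 0 < W) {N : ℕ} (hN : Real.exp Λ ≤ N) {S : Finset ℕ}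
    (hS : ∀ a ∈ S, 1 ≤ a ∧ Real.log a ≤ Λ) :
    Dom (fun χ : DirichletCharacter ℂ q => ((Real.exp (-Λ ^ 2 / (4 * W)) : ℝ) : ℂ) * FS S χ) (DG W N) := by
  classical
  set κ : ℝ := Real.exp (-Λ ^ 2 / (4 * W)) with hκ
  have hSN : S ⊆ Icc 1 N := by
    intro a ha
    have h1 := hS a ha
    have ha0 : (0 : ℝ) < a := by exact_mod_cast h1.1
    rw [mem_Icc]
    refine ⟨h1.1, ?_⟩
    have h2 : (a : ℝ) ≤ N := by
      refine le_trans ?_ hN
      rw [← Real.log_le_iff_le_exp ha0]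
      exact h1.2
    exact_mod_cast h2
  have h1 : Pos (fun χ : DirichletCharacter ℂ q => ∑ a ∈ Icc 1 N,
      ((gw W a * rs a - (if a ∈ S then κ * rs a else 0) : ℝ) : ℂ) * χ (a : ZMod q)) := by
    refine Pos.sum _ fun a ha => (Pos.eval _).smul ?_
    split_ifs with h
    · have h2 := hS a h
      have ha1 : (1 : ℝ) ≤ a := by exact_mod_cast h2.1
      have h3 : 0 ≤ Real.log a := Real.log_nonneg ha1
      have h4 : κ ≤ gw W a := by
        rw [hκ]
        unfold gw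
        apply Real.exp_le_exp.mpr
        rw [div_le_div_iff_of_pos_right (by positivity)]
        have := pow_le_pow_left₀ h3 h2.2 2
        linarith
      have := mul_le_mul_of_nonneg_right h4 (rs_nonneg a)
      linarith
    · rw [sub_zero]
      exact mul_nonneg (gw_nonneg W a) (rs_nonneg a)
  refine h1.congr fun χ => ?_
  have h8 : (κ : ℂ) * FS S χ =
      ∑ a ∈ Icc 1 N, (((if a ∈ S then κ * rs a else 0 : ℝ)) : ℂ) * χ (a : ZMod q) := by
    rw [← sum_subset hSN (f := fun a => (((if a ∈ S then κ * rs a else 0 : ℝ)) : ℂ) * χ (a : ZMod q))]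
    · unfold FS
      rw [mul_sum]
      refine sum_congr rfl fun a ha => ?_
      rw [if_pos ha]
      push_cast
      ring
    · intro a _ ha
      rw [if_neg ha, Complex.ofReal_zero, zero_mul]
  beta_reduce
  rw [h8]
  unfold DG
  rw [← sum_sub_distrib]
  refine sum_congr rfl fun a _ => ?_
  push_cast
  ring

end

end Pool.Agent.H86.ZC
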