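import Pool.Agent.H86.ZC.D
import Pool.Graph.R_pool_sql_team_seeded_64922ed1.X108.CH.Fin

/-!
# Large values near the centre at the quotients of every set of characters
-/

set_option autoImplicit false

open Finset Filter
open scoped Classical

namespace Pool.Agent.H86.ZC

open Pool.Agent.X24.Coset (ev_pow ev_c3 FS Dom)
open Pool.Agent.X108.CH (PR mem_PR pairs)

/-- the size of the large values -/
noncomputable def VV (Z : ℝ) : ℝ :=
  Real.exp (1 / 3000 * √(Real.log Z * Real.log (Real.log (Real.log Z)) / Real.log (Real.log Z)))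

theorem exists_pair : ∃ L₀ : ℝ, 1 ≤ L₀ ∧ ∀ L : ℝ, L₀ ≤ L → ∀ (q : ℕ) [Fact q.Prime], Real.exp L ≤ q →
    ∀ S : Finset (DirichletCharacter ℂ q), Real.exp (L / 2) ≤ (S.card : ℝ) →
    ∃ χ ∈ S, ∃ χ' ∈ S, χ ≠ χ' ∧ ∃ u : ℝ, |u| ≤ √(Real.log q / L) ∧
      Real.exp (1 / 3000 * √(L * Real.log (Real.log L) / Real.log L)) ≤
        ‖DirichletCharacter.LFunction (χ * χ'⁻¹) (1 / 2 + u * Complex.I)‖ := by
  have t1 : Tendsto (fun L : ℝ => Real.log L) atTop atTop := Real.tendsto_log_atTop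
  have t2 : Tendsto (fun L : ℝ => Real.log (Real.log L)) atTop atTop := Real.tendsto_log_atTop.comp t1
  have a1 := t1.eventually_ge_atTop 8
  have a2 := t1.eventually (ev_pow 1 8 1 (by norm_num) one_pos)
  have a3 := t2.eventually (ev_c3 (1 / 100) (by norm_num))
  have a4 := t2.eventually_ge_atTop 1
  have a5 := ev_pow 3 345600 (1 / 100) (by norm_num) (by norm_num)
  have a6 := ev_pow 4 4 (1 / 100) (by norm_num) (by norm_num)
  have a7 := ev_pow 9 121000000 1 (by norm_num) one_pos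
  have a8 : ∀ᶠ L : ℝ in atTop, 100 * Real.log (2 * C1 + 1) ≤ L := eventually_ge_atTop _
  have a9 : ∀ᶠ L : ℝ in atTop, ∀ x : ℝ, L ≤ x → 48 * x ≤ Real.exp (x / 4) := by
    filter_upwards [eventually_ge_atTop (3072 : ℝ)] with L hL x hx
    have h1 := Real.add_one_le_exp (x / 8)
    have h2 : Real.exp (x / 4) = Real.exp (x / 8) ^ 2 := by
      rw [← Real.exp_nat_mul]
      congr 1
      push_cast
      ring
    rw [h2]
    nlinarith
  obtain ⟨L₀, hL₀⟩ := eventually_atTop.mp ((a1.and (a2.and a3)).and ((a4.and a5).and ((a6.and a7).and (a8.and a9))))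
  refine ⟨max L₀ 1, le_max_right _ _, fun L hL q hq hLq S hS => ?_⟩
  obtain ⟨⟨b1, b2, b3⟩, ⟨b4, b5⟩, ⟨b6, b7⟩, b8, b9⟩ := hL₀ L ((le_max_left _ _).trans hL)
  have hL1 : 1 ≤ L := (le_max_right _ _).trans hL
  set u := Real.log L with hu
  set v := Real.log u with hv
  have hu0 : 0 < u := by linarith
  have hL0 : 0 < L := by linarith
  have hq1 : (1 : ℝ) ≤ q := by exact_mod_cast hq.out.one_lt.le
  have hq0 : (0 : ℝ) < q := by linarith
  set ℓ := Real.log q with hℓ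
  have hLℓ : L ≤ ℓ := by
    rw [hℓ, Real.le_log_iff_exp_le hq0]
    exact hLq
  have hℓ0 : 0 < ℓ := by linarith
  have hqe : (q : ℝ) = Real.exp ℓ := (Real.exp_log hq0).symm
  rw [pow_one, one_mul] at b2
  rw [one_mul] at b7
  -- the parameters
  set Λ := u ^ 2 * √L with hΛ
  have hsL : √L ^ 2 = L := Real.sq_sqrt hL0.le
  set κ := Real.exp (-Λ ^ 2 / (4 * L)) with hκ
  have hκe : κ = Real.exp (-(u ^ 4 / 4)) := by
    rw [hκ]
    congr 1
    rw [hΛ, mul_pow, hsL]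
    field_simp
  have hΛL : Λ ≤ L := by
    have h1 : u ^ 2 ≤ √L := by
      apply Real.le_sqrt_of_sq_le
      nlinarith
    calc Λ = u ^ 2 * √L := rfl
      _ ≤ √L * √L := mul_le_mul_of_nonneg_right h1 (Real.sqrt_nonneg _)
      _ = L := Real.mul_self_sqrt hL0.le
  have hN : Real.exp Λ ≤ ((q ^ 4 : ℕ) : ℝ) := by
    push_cast
    calc Real.exp Λ ≤ Real.exp L := Real.exp_le_exp.mpr hΛL
      _ ≤ q := hLq
      _ ≤ (q : ℝ) ^ 4 := le_self_pow₀ hq1 (by norm_num)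
  have hN1 : 1 ≤ q ^ 4 := Nat.one_le_pow _ _ hq.out.pos
  have hne : S.Nonempty := by
    rw [← card_pos]
    have h1 : (0 : ℝ) < S.card := lt_of_lt_of_le (Real.exp_pos _) hS
    exact_mod_cast h1
  have hC1 := C1_nonneg
  have hsize : 2 * (C1 * Real.exp (9 / 25 * L)) / κ * Real.exp (10 * (1 / 100) * L) ≤ (S.card : ℝ) := by
    refine le_trans ?_ hS
    have h1 : 2 * (C1 * Real.exp (9 / 25 * L)) / κ * Real.exp (10 * (1 / 100) * L) =
        2 * C1 * Real.exp (9 / 25 * L + u ^ 4 / 4 + 1 / 10 * L) := by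
      rw [hκe, Real.exp_neg, Real.exp_add, Real.exp_add]
      field_simp
      ring_nf
    rw [h1]
    have h2 : 2 * C1 ≤ Real.exp (Real.log (2 * C1 + 1)) := by
      rw [Real.exp_log (by linarith)]
      linarith
    calc 2 * C1 * Real.exp (9 / 25 * L + u ^ 4 / 4 + 1 / 10 * L)
        ≤ Real.exp (Real.log (2 * C1 + 1)) * Real.exp (9 / 25 * L + u ^ 4 / 4 + 1 / 10 * L) := by gcongr
      _ = Real.exp (Real.log (2 * C1 + 1) + (9 / 25 * L + u ^ 4 / 4 + 1 / 10 * L)) := (Real.exp_add _ _).symm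
      _ ≤ Real.exp (L / 2) := by
          apply Real.exp_le_exp.mpr
          linarith
  obtain ⟨χ, hχ, χ', hχ', hne', h⟩ := explicit (q := q) (δ := 1 / 100) (by norm_num) (by norm_num) hLq hu hv b1 b2 b3 b4
    b5 (by linarith) (D := DG L (q ^ 4)) (κ := κ) (K := C1 * Real.exp (9 / 25 * L)) (Real.exp_pos _)
    (fun χ => DG_trivial hL0 _ χ) (fun A hA => DG_dom hL0 hN hA) S hne hsize
  refine ⟨χ, hχ, χ', hχ', hne', ?_⟩
  by_contra hcon
  push Not at hcon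
  set x := √(L * v / u) with hx
  have hχ1 : χ * χ'⁻¹ ≠ 1 := fun e => hne' (mul_inv_eq_one.mp e)
  have hq2 : q ≠ 2 := by
    rintro rfl
    have h1 : Real.exp 1 ≤ Real.exp L := Real.exp_le_exp.mpr hL1
    have h2 := Real.exp_one_gt_d9
    push_cast at hLq
    linarith
  have hD := DG_le hχ1 (K := √q * ℓ) (M := Real.exp (1 / 3000 * x)) (W := L) (A := √(ℓ / L)) hL1 (Real.sqrt_nonneg _)
    (Real.exp_pos _).le (fun n => Pool.Agent.V1143.EC.A_bound hq2 _ hχ1 n) hN1 (fun u hu => (hcon u hu).le)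
  have hA2 : √(ℓ / L) ^ 2 = ℓ / L := Real.sq_sqrt (by positivity)
  have hsmall : 24 * (√q * ℓ) * (((q ^ 4 : ℕ) : ℝ) ^ (-(1 / 2) : ℝ) + Real.exp (-(3 / 4 * L * √(ℓ / L) ^ 2))) ≤ 1 := by
    have h1 : ((q ^ 4 : ℕ) : ℝ) ^ (-(1 / 2) : ℝ) ≤ Real.exp (-(3 / 4 * ℓ)) := by
      push_cast
      rw [hqe, ← Real.exp_nat_mul, ← Real.exp_mul]
      apply Real.exp_le_exp.mpr
      push_cast
      linarith
    have h2 : 3 / 4 * L * √(ℓ / L) ^ 2 = 3 / 4 * ℓ := by
      rw [hA2]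
      field_simp
    rw [h2]
    have h3 : √(q : ℝ) = Real.exp (1 / 2 * ℓ) := by
      rw [Real.sqrt_eq_rpow, hqe, ← Real.exp_mul]
      congr 1
      ring
    rw [h3]
    calc 24 * (Real.exp (1 / 2 * ℓ) * ℓ) * (((q ^ 4 : ℕ) : ℝ) ^ (-(1 / 2) : ℝ) + Real.exp (-(3 / 4 * ℓ)))
        ≤ 24 * (Real.exp (1 / 2 * ℓ) * ℓ) * (Real.exp (-(3 / 4 * ℓ)) + Real.exp (-(3 / 4 * ℓ))) := by gcongr
      _ = 48 * ℓ * (Real.exp (1 / 2 * ℓ) * Real.exp (-(3 / 4 * ℓ))) := by ring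
      _ = 48 * ℓ * Real.exp (-(ℓ / 4)) := by
          rw [← Real.exp_add]
          congr 2
          ring
      _ ≤ Real.exp (ℓ / 4) * Real.exp (-(ℓ / 4)) := by
          have := b9 ℓ hLℓ
          gcongr
      _ = 1 := by rw [← Real.exp_add, add_neg_cancel, Real.exp_zero]
  have h1 : κ * Real.exp (√(1 / 100 / 384) / 12 * x) ≤ Real.exp (1 / 3000 * x) + 1 := h.trans (hD.trans (by linarith))
  have hxL : 11000 * (u ^ 4 / 4 + 1) ≤ x := by
    apply Real.le_sqrt_of_sq_le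
    rw [le_div_iff₀ hu0]
    have h2 : u ^ 4 / 4 + 1 ≤ u ^ 4 := by nlinarith [pow_le_pow_left₀ (by norm_num) b1 4]
    have h3 : (11000 * (u ^ 4 / 4 + 1)) ^ 2 * u ≤ (11000 * u ^ 4) ^ 2 * u := by gcongr
    have h4 : (11000 * u ^ 4) ^ 2 * u = 121000000 * u ^ 9 := by ring
    have h5 : L ≤ L * v := le_mul_of_one_le_right hL0.le b4
    linarith
  have hc : 1 / 2352 ≤ √(1 / 100 / 384) / 12 := by
    have h2 : (1 : ℝ) / 196 ≤ √(1 / 100 / 384) := by
      apply Real.le_sqrt_of_sq_le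
      norm_num
    linarith
  have hx0 : 0 ≤ x := Real.sqrt_nonneg _
  have h2 : Real.exp (1 / 3000 * x + 1) ≤ κ * Real.exp (√(1 / 100 / 384) / 12 * x) := by
    rw [hκe, ← Real.exp_add]
    apply Real.exp_le_exp.mpr
    have h3 : 1 / 2352 * x ≤ √(1 / 100 / 384) / 12 * x := mul_le_mul_of_nonneg_right hc hx0
    linarith
  rw [Real.exp_add] at h2
  have h3 : 1 ≤ Real.exp (1 / 3000 * x) := Real.one_le_exp (by positivity)
  have h4 := Real.exp_one_gt_d9
  nlinarith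

end Pool.Agent.H86.ZC
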