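import Pool.Agent.H86.ZC.E

/-!
# The number of the quotients with large values near the centre
-/

set_option autoImplicit false

open Finset Filter
open scoped Classical

namespace Pool.Agent.H86.ZC

open Pool.Agent.X108.CH (PR mem_PR pairs)

/-- a large value near the centre -/
def LN {q : ℕ} [NeZero q] (Z : ℝ) (χ : DirichletCharacter ℂ q) : Prop :=
  ∃ u : ℝ, |u| ≤ √(Real.log q / Real.log Z) ∧ VV Z ≤ ‖DirichletCharacter.LFunction χ (1 / 2 + u * Complex.I)‖

/-- the two characters have a quotient with a large value near the centre -/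
def EE {q : ℕ} [NeZero q] (Z : ℝ) (χ χ' : DirichletCharacter ℂ q) : Prop :=
  χ ≠ χ' ∧ LN Z (χ * χ'⁻¹)

section
variable {q : ℕ} [hq : Fact q.Prime]

theorem LN_inv {Z : ℝ} {χ : DirichletCharacter ℂ q} (h : LN Z χ) : LN Z χ⁻¹ := by
  obtain ⟨u, hu, h⟩ := h
  refine ⟨-u, by rwa [abs_neg], ?_⟩
  have h1 := H370.DL.LFunction_conj χ (1 / 2 + u * Complex.I) (by
    intro e
    have := congrArg Complex.re e
    simp at this)
  have h2 : (starRingEnd ℂ) (1 / 2 + u * Complex.I) = 1 / 2 + ((-u : ℝ) : ℂ) * Complex.I := by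
    rw [map_add, map_mul, Complex.conj_I, Complex.conj_ofReal, map_div₀, map_one, map_ofNat]
    push_cast
    ring
  rw [h2] at h1
  rw [h1, RCLike.norm_conj]
  exact h

theorem EE_symm {Z : ℝ} (χ χ' : DirichletCharacter ℂ q) (h : EE Z χ χ') : EE Z χ' χ := by
  refine ⟨h.1.symm, ?_⟩
  have h1 : χ' * χ⁻¹ = (χ * χ'⁻¹)⁻¹ := by rw [mul_inv_rev, inv_inv]
  rw [h1]
  exact LN_inv h.2

end

theorem card_le (q : ℕ) [NeZero q] (S : Finset (DirichletCharacter ℂ q)) : (S.card : ℝ) ≤ q :=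
  Pool.Agent.X108.CH.card_le q S

theorem count : ∃ Z₀ : ℝ, 256 ≤ Z₀ ∧ ∀ (q : ℕ) [Fact q.Prime] (Z : ℝ), Z₀ ≤ Z →
    ∀ S : Finset (DirichletCharacter ℂ q), Z ≤ (S.card : ℝ) →
    2 * ((S.card : ℝ) ^ 2 / Z) ≤ ((PR S (EE Z)).card : ℝ) := by
  obtain ⟨L₀, hL₀, h⟩ := exists_pair
  refine ⟨max (Real.exp L₀) 256, le_max_right _ _, fun q hq Z hZ S hS => ?_⟩
  have hZ256 : 256 ≤ Z := (le_max_right _ _).trans hZ
  have hZ0 : 0 < Z := by linarith
  have hL : L₀ ≤ Real.log Z := by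
    rw [Real.le_log_iff_exp_le hZ0]
    exact (le_max_left _ _).trans hZ
  have hexp : Real.exp (Real.log Z) = Z := Real.exp_log hZ0
  have hα : Real.exp (Real.log Z / 2) = √Z := by
    rw [Real.sqrt_eq_rpow, Real.rpow_def_of_pos hZ0]
    congr 1
    ring
  have hsq : √Z * √Z = Z := Real.mul_self_sqrt hZ0.le
  have h16 : 16 ≤ √Z := Real.le_sqrt_of_sq_le (by linarith)
  have hp := pairs S (EE Z) EE_symm (α := √Z) (by linarith) (fun A hA hAc => by
    obtain ⟨χ, hχ, χ', hχ', hne, hle⟩ := h (Real.log Z) hL q (by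
      rw [hexp]
      exact hS.trans (card_le q S)) A (by rw [hα]; exact hAc)
    exact ⟨χ, hχ, χ', hχ', hne, hne, hle⟩) (by nlinarith)
  refine le_trans ?_ hp
  have h1 : (S.card : ℝ) ^ 2 / (8 * √Z) = (S.card : ℝ) ^ 2 * (1 / (8 * √Z)) := by ring
  have h2 : 2 * ((S.card : ℝ) ^ 2 / Z) = (S.card : ℝ) ^ 2 * (2 / Z) := by ring
  rw [h1, h2]
  refine mul_le_mul_of_nonneg_left ?_ (by positivity)
  rw [div_le_div_iff₀ hZ0 (by positivity)]
  nlinarith

/-- the characters of a group -/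
theorem group_count {q : ℕ} [hq : Fact q.Prime] {Z : ℝ} (hZ : 0 < Z)
    (h : ∀ S : Finset (DirichletCharacter ℂ q), Z ≤ (S.card : ℝ) →
      2 * ((S.card : ℝ) ^ 2 / Z) ≤ ((PR S (EE Z)).card : ℝ))
    (H : Subgroup (DirichletCharacter ℂ q)) (hH : Z ≤ (Nat.card H : ℝ)) :
    (Nat.card H : ℝ) / Z ≤ (({χ : DirichletCharacter ℂ q | χ ∈ H ∧ χ ≠ 1 ∧ LN Z χ}).ncard : ℝ) := by
  obtain ⟨S, hSm⟩ : ∃ S : Finset (DirichletCharacter ℂ q), ∀ χ, χ ∈ S ↔ χ ∈ H :=
    ⟨(Set.toFinite (H : Set (DirichletCharacter ℂ q))).toFinset, fun χ => by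
      rw [Set.Finite.mem_toFinset, SetLike.mem_coe]⟩
  have hSc : (S.card : ℝ) = Nat.card H := by
    have h1 : S.card = Nat.card H := by
      have h2 : (S : Set (DirichletCharacter ℂ q)) = (H : Set (DirichletCharacter ℂ q)) := by
        ext χ
        rw [Finset.mem_coe, SetLike.mem_coe]
        exact hSm χ
      rw [← Set.ncard_coe_finset, h2]
      rfl
    exact_mod_cast h1
  have h1 := h S (by rw [hSc]; exact hH)
  rw [hSc] at h1
  obtain ⟨R, hR⟩ : ∃ R : Finset (DirichletCharacter ℂ q), ∀ χ, χ ∈ R ↔ χ ∈ H ∧ χ ≠ 1 ∧ LN Z χ :=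
    ⟨(Set.toFinite {χ : DirichletCharacter ℂ q | χ ∈ H ∧ χ ≠ 1 ∧ LN Z χ}).toFinset, fun χ => by
      rw [Set.Finite.mem_toFinset]
      rfl⟩
  have hRc : (({χ : DirichletCharacter ℂ q | χ ∈ H ∧ χ ≠ 1 ∧ LN Z χ}).ncard : ℝ) = R.card := by
    have : {χ : DirichletCharacter ℂ q | χ ∈ H ∧ χ ≠ 1 ∧ LN Z χ} = (R : Set (DirichletCharacter ℂ q)) := by
      ext χ
      rw [Finset.mem_coe, hR]
      rfl
    rw [this, Set.ncard_coe_finset]
  rw [hRc]
  have h2 : (PR S (EE Z)).card ≤ (R ×ˢ S).card := by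
    refine card_le_card_of_injOn (fun p => (p.1 * p.2⁻¹, p.2)) ?_ ?_
    · intro p hp
      rw [mem_coe] at hp ⊢
      rw [mem_PR] at hp
      rw [mem_product, hR]
      refine ⟨⟨H.mul_mem ((hSm _).1 hp.1.1) (H.inv_mem ((hSm _).1 hp.1.2)), ?_, hp.2.2.2⟩, hp.1.2⟩
      intro e
      exact hp.2.1 (mul_inv_eq_one.mp e)
    · intro p _ p' _ e
      rw [Prod.mk.injEq] at e
      have e2 := e.2
      have e1 := e.1
      rw [e2] at e1
      exact Prod.ext (mul_right_cancel e1) e2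
  rw [card_product] at h2
  have h3 : ((PR S (EE Z)).card : ℝ) ≤ R.card * Nat.card H := by
    rw [← hSc]
    exact_mod_cast h2
  have hH0 : (0 : ℝ) < Nat.card H := by exact_mod_cast Nat.card_pos
  have h4 : 0 ≤ (Nat.card H : ℝ) / Z := by positivity
  have h5 : ((Nat.card H : ℝ) / Z) * Nat.card H ≤ R.card * Nat.card H := by
    have h6 : ((Nat.card H : ℝ) / Z) * Nat.card H = (Nat.card H : ℝ) ^ 2 / Z := by ring
    have h7 : 0 ≤ (Nat.card H : ℝ) ^ 2 / Z := by positivity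
    linarith
  exact le_of_mul_le_mul_right h5 hH0

/-- the powers of a character -/
theorem power_count {q : ℕ} [hq : Fact q.Prime] {Z : ℝ} (hZ : 0 < Z)
    (h : ∀ S : Finset (DirichletCharacter ℂ q), Z ≤ (S.card : ℝ) →
      2 * ((S.card : ℝ) ^ 2 / Z) ≤ ((PR S (EE Z)).card : ℝ))
    (ψ : DirichletCharacter ℂ q) (J : ℕ) (hJ : J ≤ orderOf ψ) (hJq : Z ≤ (J : ℝ)) :
    (J : ℝ) / Z ≤ (((Ico 1 J).filter (fun h => LN Z (ψ ^ h))).card : ℝ) := by
  have hinj : Set.InjOn (fun j : ℕ => ψ ^ j) (range J : Set ℕ) := by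
    intro i hi j hj hij
    rw [mem_coe, mem_range] at hi hj
    exact pow_injOn_Iio_orderOf (Set.mem_Iio.2 (hi.trans_le hJ)) (Set.mem_Iio.2 (hj.trans_le hJ)) hij
  obtain ⟨S, hS⟩ : ∃ S : Finset (DirichletCharacter ℂ q), S = (range J).image (fun j : ℕ => ψ ^ j) := ⟨_, rfl⟩
  have hSc : S.card = J := by rw [hS, card_image_of_injOn hinj, card_range]
  have h1 := h S (by rw [hSc]; exact hJq)
  rw [hSc] at h1
  obtain ⟨R, hR⟩ : ∃ R : Finset ℕ, R = (Ico 1 J).filter (fun h => LN Z (ψ ^ h)) := ⟨_, rfl⟩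
  rw [← hR]
  obtain ⟨P, hP⟩ : ∃ P : Finset (ℕ × ℕ), P = (range J ×ˢ range J).filter (fun p => EE Z (ψ ^ p.1) (ψ ^ p.2)) :=
    ⟨_, rfl⟩
  have h2 : (PR S (EE Z)).card ≤ P.card := by
    refine (card_le_card ?_).trans (card_image_le (s := P) (f := fun p => (ψ ^ p.1, ψ ^ p.2)))
    intro p hp
    rw [mem_PR, hS, mem_image, mem_image] at hp
    obtain ⟨⟨⟨i, hi, hi'⟩, ⟨j, hj, hj'⟩⟩, -, hE⟩ := hp
    rw [mem_image]
    refine ⟨(i, j), ?_, Prod.ext hi' hj'⟩
    rw [hP, mem_filter, mem_product]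
    refine ⟨⟨hi, hj⟩, ?_⟩
    have hi'' : ψ ^ i = p.1 := hi'
    have hj'' : ψ ^ j = p.2 := hj'
    show EE Z (ψ ^ i) (ψ ^ j)
    rw [hi'', hj'']
    exact hE
  have h3 : P.card ≤ ((R ×ˢ range J) ×ˢ (Finset.univ : Finset Bool)).card := by
    refine card_le_card_of_injOn (fun p => ((max p.1 p.2 - min p.1 p.2, min p.1 p.2), decide (p.1 < p.2))) ?_ ?_
    · intro p hp
      rw [mem_coe] at hp ⊢
      rw [hP, mem_filter, mem_product, mem_range, mem_range] at hp
      obtain ⟨⟨hi, hj⟩, hne, hV⟩ := hp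
      have hne' : p.1 ≠ p.2 := fun e => hne (by rw [e])
      rw [mem_product, mem_product, mem_range]
      refine ⟨⟨?_, ?_⟩, mem_univ _⟩
      · show max p.1 p.2 - min p.1 p.2 ∈ R
        rw [hR, mem_filter, mem_Ico]
        rcases lt_or_gt_of_ne hne' with hlt | hlt
        · rw [max_eq_right hlt.le, min_eq_left hlt.le]
          refine ⟨⟨by omega, by omega⟩, ?_⟩
          have e0 : ψ ^ p.2 = ψ ^ (p.2 - p.1) * ψ ^ p.1 := by
            rw [← pow_add]
            congr 1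
            omega
          have e1 : ψ ^ p.1 * (ψ ^ p.2)⁻¹ = (ψ ^ (p.2 - p.1))⁻¹ := by
            rw [e0, mul_inv_rev, mul_inv_cancel_left]
          rw [e1] at hV
          have hV' := LN_inv hV
          rwa [inv_inv] at hV'
        · rw [max_eq_left hlt.le, min_eq_right hlt.le]
          refine ⟨⟨by omega, by omega⟩, ?_⟩
          have e1 : ψ ^ p.1 * (ψ ^ p.2)⁻¹ = ψ ^ (p.1 - p.2) := by
            rw [mul_inv_eq_iff_eq_mul, ← pow_add]
            congr 1
            omega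
          rw [e1] at hV
          exact hV
      · show min p.1 p.2 < J
        exact lt_of_le_of_lt (min_le_left _ _) hi
    · intro p _ p' _ e
      simp only [Prod.mk.injEq] at e
      obtain ⟨⟨e1, e2⟩, e3⟩ := e
      have e4 : (p.1 < p.2) ↔ (p'.1 < p'.2) := by simpa using e3
      rcases lt_or_ge p.1 p.2 with hlt | hge
      · have hlt' := e4.1 hlt
        rw [max_eq_right hlt.le, min_eq_left hlt.le, max_eq_right hlt'.le, min_eq_left hlt'.le] at e1
        rw [min_eq_left hlt.le, min_eq_left hlt'.le] at e2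
        exact Prod.ext e2 (by omega)
      · have hge' : p'.2 ≤ p'.1 := by
          by_contra hcon
          exact absurd (e4.2 (not_le.1 hcon)) (not_lt.2 hge)
        rw [max_eq_left hge, min_eq_right hge, max_eq_left hge', min_eq_right hge'] at e1
        rw [min_eq_right hge, min_eq_right hge'] at e2
        exact Prod.ext (by omega) e2
  rw [card_product, card_product, card_range] at h3
  have h4 : (Finset.univ : Finset Bool).card = 2 := rfl
  rw [h4] at h3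
  have h5 : ((PR S (EE Z)).card : ℝ) ≤ R.card * J * 2 := by exact_mod_cast h2.trans h3
  have hJ0 : (0 : ℝ) < J := lt_of_lt_of_le hZ hJq
  have h6 : ((J : ℝ) / Z) * (J * 2) ≤ R.card * (J * 2) := by
    calc ((J : ℝ) / Z) * (J * 2) = 2 * ((J : ℝ) ^ 2 / Z) := by ring
      _ ≤ _ := h1
      _ ≤ _ := h5
      _ = _ := by ring
  exact le_of_mul_le_mul_right h6 (by positivity)

end Pool.Agent.H86.ZC
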